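import Pool.Agent.W14.SM.Main

/-!
Bounded perturbations: `r_{B,h}` for `B = {x | x + k ∈ A' for some k ≤ L}` is bounded in terms of
`r_{A',h}`.
-/

set_option autoImplicit false

open Finset Filter

namespace Pool.Agent.W14.SM

theorem bdd (A' : Set ℕ) (h K L : ℕ) (hK : ∀ n, r A' h n ≤ K) (n : ℕ) :
    r {x | ∃ k ≤ L, x + k ∈ A'} h n ≤ (h * L + 1) * (K * (L + 1) ^ h) := by
  classical
  set B : Set ℕ := {x | ∃ k ≤ L, x + k ∈ A'} with hB
  -- the finite set of candidates
  let T : ℕ → Finset (Multiset ℕ) := fun m => (reps_finite A' h m).toFinset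
  have hT : ∀ m, (T m).card ≤ K := by
    intro m
    have := hK m
    unfold r at this
    rwa [Set.ncard_eq_toFinset_card _ (reps_finite A' h m)] at this
  let E : Multiset ℕ → Finset (Multiset ℕ) := fun t =>
    (Finset.univ : Finset (Fin h → Fin (L + 1))).image
      (fun f => Multiset.ofList (List.ofFn (fun i : Fin h => (t.toList.getD i 0) - (f i : ℕ))))
  have hE : ∀ t, (E t).card ≤ (L + 1) ^ h := by
    intro t
    refine card_image_le.trans ?_
    rw [card_univ, Fintype.card_fun, Fintype.card_fin, Fintype.card_fin]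
  have hsub : {s : Multiset ℕ | Multiset.card s = h ∧ (∀ a ∈ s, a ∈ B) ∧ s.sum = n} ⊆
      ((Finset.range (h * L + 1)).biUnion (fun j => (T (n + j)).biUnion E) :
        Finset (Multiset ℕ)) := by
    rintro s ⟨hc, hs, hsum⟩
    -- the lift
    let k : ℕ → ℕ := fun x => if hx : ∃ k ≤ L, x + k ∈ A' then hx.choose else 0
    have hk : ∀ x ∈ s, k x ≤ L ∧ x + k x ∈ A' := by
      intro x hx
      have h1 : ∃ k ≤ L, x + k ∈ A' := hs x hx
      simp only [k, dif_pos h1]
      exact h1.choose_spec
    set t := s.map (fun x => x + k x) with ht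
    have htc : Multiset.card t = h := by rw [ht, Multiset.card_map, hc]
    have hts : t.sum = n + (s.map k).sum := by
      rw [ht, Multiset.sum_map_add, Multiset.map_id', hsum]
    have hks : (s.map k).sum ≤ h * L := by
      have h1 := Multiset.sum_le_card_nsmul (s.map k) L (by
        intro y hy
        rw [Multiset.mem_map] at hy
        obtain ⟨x, hx, rfl⟩ := hy
        exact (hk x hx).1)
      rwa [Multiset.card_map, hc, smul_eq_mul] at h1
    rw [mem_coe, mem_biUnion]
    refine ⟨(s.map k).sum, by rw [mem_range]; omega, ?_⟩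
    rw [mem_biUnion]
    refine ⟨t, ?_, ?_⟩
    · rw [Set.Finite.mem_toFinset]
      refine ⟨htc, ?_, hts⟩
      intro a ha
      rw [ht, Multiset.mem_map] at ha
      obtain ⟨x, hx, rfl⟩ := ha
      exact (hk x hx).2
    · -- order `s` according to the list `t.toList`
      have hex : ∃ l : List ℕ, (l : Multiset ℕ) = s ∧ l.map (fun x => x + k x) = t.toList := by
        obtain ⟨l0, hl0⟩ := Quotient.exists_rep s
        have h1 : ((l0.map (fun x => x + k x) : List ℕ) : Multiset ℕ) = t := by
          rw [ht, ← hl0]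
          rfl
        have h2 : (l0.map (fun x => x + k x)).Perm t.toList := by
          rw [← Multiset.coe_eq_coe, h1, Multiset.coe_toList]
        have h3 : Relation.Comp (fun (x : List ℕ) (y : List ℕ) => x = List.map (fun x => x + k x) y)
            (fun x y => x.Perm y) t.toList l0 := by
          rw [List.eq_map_comp_perm]
          exact h2.symm
        obtain ⟨l, hl1, hl2⟩ := h3
        exact ⟨l, by rw [← hl0]; exact Multiset.coe_eq_coe.mpr hl2, hl1.symm⟩
      obtain ⟨l, hl1, hl2⟩ := hex
      have hll : l.length = h := by rw [← hc, ← hl1]; rfl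
      subst hll
      have hkl : ∀ i : Fin l.length, k (l.get i) ≤ L := by
        intro i
        refine (hk _ ?_).1
        rw [← hl1]
        simp
      rw [mem_image]
      refine ⟨fun i => ⟨k (l.get i), Nat.lt_succ_of_le (hkl i)⟩, mem_univ _, ?_⟩
      rw [← hl1]
      congr 1
      rw [← hl2]
      conv_rhs => rw [← List.ofFn_get l]
      congr 1
      funext i
      simp
  unfold r
  calc Set.ncard _ ≤ Set.ncard (((Finset.range (h * L + 1)).biUnion (fun j =>
          (T (n + j)).biUnion E) : Finset (Multiset ℕ)) : Set (Multiset ℕ)) :=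
        Set.ncard_le_ncard hsub (Finset.finite_toSet _)
    _ = ((Finset.range (h * L + 1)).biUnion (fun j => (T (n + j)).biUnion E)).card :=
        Set.ncard_coe_finset _
    _ ≤ (Finset.range (h * L + 1)).card * (K * (L + 1) ^ h) := by
        refine card_biUnion_le_card_mul _ _ _ (fun j _ => ?_)
        refine (card_biUnion_le_card_mul _ _ _ (fun t _ => hE t)).trans ?_
        exact Nat.mul_le_mul_right _ (hT _)
    _ = _ := by rw [card_range]

/-- the conjecture of Erdős and Turán of order `h` is equivalent to the same statement for all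
bounded perturbations of asymptotic bases -/
theorem bounded_iff (h L : ℕ) :
    (∀ A : Set ℕ, IsBasis A h → ∀ K : ℕ, ∃ n, K < r A h n) ↔
    (∀ A : Set ℕ, IsBasis A h → ∀ ξ : ℕ → ℕ, (∀ a, ξ a ≤ L) →
      ∀ K : ℕ, ∃ n, K < r {m | ∃ a ∈ A, m = a + ξ a} h n) := by
  constructor
  · intro hET A hA ξ hξ K
    by_contra hcon
    push Not at hcon
    have hB : IsBasis {x | ∃ k ≤ L, x + k ∈ {m | ∃ a ∈ A, m = a + ξ a}} h := by
      obtain ⟨n0, h0⟩ := hA
      refine ⟨n0, fun n hn => ?_⟩
      obtain ⟨s, hs, hsA, hsum⟩ := h0 n hn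
      exact ⟨s, hs, fun a ha => ⟨ξ a, hξ a, a, hsA a ha, rfl⟩, hsum⟩
    obtain ⟨n, hn⟩ := hET _ hB ((h * L + 1) * (K * (L + 1) ^ h))
    exact absurd (bdd _ h K L hcon n) (not_le.mpr hn)
  · intro hET A hA K
    obtain ⟨n, hn⟩ := hET A hA (fun _ => 0) (fun _ => Nat.zero_le _) K
    refine ⟨n, ?_⟩
    have h1 : {m | ∃ a ∈ A, m = a + (fun _ => 0) a} = A := by
      ext m
      simp
    rw [h1] at hn
    exact hn

end Pool.Agent.W14.SM
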