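import Mathlib

/-!
# Perturbations creating many representations: the deterministic part

`Good h K G v`: there are `K` different multisets of size `h` of elements of `v '' G` with the same
sum.  Among many indices with base points `b i` in a short range one finds a bounded number of
indices whose base points can be moved by at most `l` so that `Good` holds.
-/

set_option autoImplicit false

open Finset

namespace Pool.Agent.W14.SM

/-- there are `K` different multisets of `h` elements of `v '' G` with the same sum -/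
def Good (h K : ℕ) (G : Finset ℕ) (v : ℕ → ℕ) : Prop :=
  ∃ (n : ℕ) (S : Finset (Multiset ℕ)), K ≤ S.card ∧
    ∀ s ∈ S, Multiset.card s = h ∧ (∀ x ∈ s, ∃ i ∈ G, v i = x) ∧ s.sum = n

theorem Good.congr {h K : ℕ} {G : Finset ℕ} {v v' : ℕ → ℕ} (hg : Good h K G v)
    (he : ∀ i ∈ G, v i = v' i) : Good h K G v' := by
  obtain ⟨n, S, hS, h1⟩ := hg
  refine ⟨n, S, hS, fun s hs => ⟨(h1 s hs).1, fun x hx => ?_, (h1 s hs).2.2⟩⟩
  obtain ⟨i, hi, hx⟩ := (h1 s hs).2.1 x hx
  exact ⟨i, hi, by rw [← he i hi]; exact hx⟩

/-- a cluster of `2 K` base points -/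
theorem cluster (h K : ℕ) (hh : 2 ≤ h) (P : Finset ℕ) (hP : P.card = 2 * K) (b : ℕ → ℕ)
    (B l' l : ℕ) (hB : ∀ i ∈ P, b i ≤ B ∧ B ≤ b i + l') (hl : l' + 2 * K ≤ l) :
    ∃ v : ℕ → ℕ, (∀ i ∈ P, b i ≤ v i ∧ v i ≤ b i + l) ∧ Good h K P v := by
  classical
  let e := P.equivFinOfCardEq hP
  let v : ℕ → ℕ := fun i => if hi : i ∈ P then B + (e ⟨i, hi⟩ : ℕ) else 0
  have hv : ∀ i (hi : i ∈ P), v i = B + (e ⟨i, hi⟩ : ℕ) := fun i hi => by simp [v, hi]
  have hsurj : ∀ j, j < 2 * K → ∃ i ∈ P, v i = B + j := by
    intro j hj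
    refine ⟨(e.symm ⟨j, hj⟩ : P), (e.symm ⟨j, hj⟩).2, ?_⟩
    rw [hv _ (e.symm ⟨j, hj⟩).2]
    simp
  refine ⟨v, fun i hi => ?_, ?_⟩
  · have h1 := hB i hi
    have h2 := (e ⟨i, hi⟩).2
    rw [hv i hi]
    omega
  · let m : ℕ → Multiset ℕ := fun j => {B + j, B + (2 * K - 1 - j)} + Multiset.replicate (h - 2) B
    refine ⟨(2 * B + (2 * K - 1)) + (h - 2) * B, (range K).image m, ?_, ?_⟩
    · rw [card_image_of_injOn, card_range]
      intro j hj j' hj' hjj
      simp only [coe_range, Set.mem_Iio] at hj hj'
      have h1 : ({B + j, B + (2 * K - 1 - j)} : Multiset ℕ) = {B + j', B + (2 * K - 1 - j')} :=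
        add_right_cancel hjj
      have h2 : B + j ∈ ({B + j', B + (2 * K - 1 - j')} : Multiset ℕ) := by
        rw [← h1]; simp
      simp only [Multiset.insert_eq_cons, Multiset.mem_cons, Multiset.mem_singleton] at h2
      omega
    · intro s hs
      rw [mem_image] at hs
      obtain ⟨j, hj, rfl⟩ := hs
      rw [mem_range] at hj
      refine ⟨?_, ?_, ?_⟩
      · simp only [m, Multiset.card_add, Multiset.insert_eq_cons, Multiset.card_cons,
          Multiset.card_singleton, Multiset.card_replicate]
        omega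
      · intro x hx
        simp only [m, Multiset.mem_add, Multiset.insert_eq_cons, Multiset.mem_cons,
          Multiset.mem_singleton] at hx
        rcases hx with (rfl | rfl) | hx
        · exact hsurj j (by omega)
        · exact hsurj _ (by omega)
        · rw [Multiset.eq_of_mem_replicate hx]
          obtain ⟨i, hi, h3⟩ := hsurj 0 (by omega)
          exact ⟨i, hi, by rw [h3, add_zero]⟩
      · simp only [m, Multiset.sum_add, Multiset.insert_eq_cons, Multiset.sum_cons,
          Multiset.sum_singleton, Multiset.sum_replicate, smul_eq_mul]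
        omega

/-- the sunflower lemma -/
theorem sunflower (K : ℕ) : ∀ (s : ℕ) (F : Finset (Finset ℕ)), (∀ A ∈ F, A.card = s) →
    s.factorial * K ^ s < F.card →
    ∃ (Z : Finset ℕ) (S : Finset (Finset ℕ)), S ⊆ F ∧ S.card = K + 1 ∧ (∀ A ∈ S, Z ⊆ A) ∧
      ∀ A ∈ S, ∀ A' ∈ S, A ≠ A' → Disjoint (A \ Z) (A' \ Z) := by
  classical
  intro s
  induction s with
  | zero =>
    intro F hF hc
    exfalso
    have h1 : F ⊆ {∅} := by
      intro A hA
      rw [mem_singleton]
      exact card_eq_zero.mp (hF A hA)
    have h2 := card_le_card h1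
    simp at h2 hc
    omega
  | succ s ih =>
    intro F hF hc
    -- a maximal family of pairwise disjoint members
    have hex : ∃ D : Finset (Finset ℕ), D ⊆ F ∧ (∀ A ∈ D, ∀ A' ∈ D, A ≠ A' → Disjoint A A') ∧
        ∀ D' : Finset (Finset ℕ), D' ⊆ F → (∀ A ∈ D', ∀ A' ∈ D', A ≠ A' → Disjoint A A') →
          D'.card ≤ D.card := by
      have hne : (F.powerset.filter (fun D => ∀ A ∈ D, ∀ A' ∈ D, A ≠ A' →
          Disjoint A A')).Nonempty := ⟨∅, by simp⟩
      obtain ⟨D, hD, hmax⟩ := exists_max_image _ (fun D => D.card) hne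
      rw [mem_filter, mem_powerset] at hD
      exact ⟨D, hD.1, hD.2, fun D' h1 h2 => hmax D' (by
        rw [mem_filter, mem_powerset]; exact ⟨h1, h2⟩)⟩
    obtain ⟨D, hDF, hDd, hDmax⟩ := hex
    by_cases hDK : K + 1 ≤ D.card
    · obtain ⟨S, hSD, hS⟩ := exists_subset_card_eq hDK
      refine ⟨∅, S, hSD.trans hDF, hS, fun A _ => empty_subset A, fun A hA A' hA' hne => ?_⟩
      rw [sdiff_empty, sdiff_empty]
      exact hDd A (hSD hA) A' (hSD hA') hne
    · have hU : (D.biUnion id).card ≤ K * (s + 1) := by
        calc (D.biUnion id).card ≤ D.card * (s + 1) :=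
              card_biUnion_le_card_mul _ _ _ (fun A hA => le_of_eq (hF A (hDF hA)))
          _ ≤ K * (s + 1) := Nat.mul_le_mul_right _ (by omega)
      have hmeet : ∀ A ∈ F, ∃ x ∈ D.biUnion id, x ∈ A := by
        intro A hA
        by_contra hcon
        push Not at hcon
        have hA0 : A.Nonempty := by
          rw [← card_pos, hF A hA]; omega
        have hAD : A ∉ D := by
          intro hAD
          obtain ⟨x, hx⟩ := hA0
          exact hcon x (mem_biUnion.mpr ⟨A, hAD, hx⟩) hx
        have h1 := hDmax (insert A D) (insert_subset hA hDF) (by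
          intro A1 hA1 A2 hA2 hne
          rw [mem_insert] at hA1 hA2
          have hdis : ∀ A' ∈ D, Disjoint A A' := by
            intro A' hA'
            rw [disjoint_left]
            intro x hx hx'
            exact hcon x (mem_biUnion.mpr ⟨A', hA', hx'⟩) hx
          rcases hA1 with rfl | hA1 <;> rcases hA2 with rfl | hA2
          · exact absurd rfl hne
          · exact hdis _ hA2
          · exact (hdis _ hA1).symm
          · exact hDd _ hA1 _ hA2 hne)
        rw [card_insert_of_notMem hAD] at h1
        omega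
      have hpig : ∃ x ∈ D.biUnion id, s.factorial * K ^ s < (F.filter (fun A => x ∈ A)).card := by
        by_contra hcon
        push Not at hcon
        have h1 : F.card ≤ ∑ x ∈ D.biUnion id, (F.filter (fun A => x ∈ A)).card := by
          calc F.card ≤ ((D.biUnion id).biUnion (fun x => F.filter (fun A => x ∈ A))).card := by
                refine card_le_card ?_
                intro A hA
                obtain ⟨x, hx, hxA⟩ := hmeet A hA
                exact mem_biUnion.mpr ⟨x, hx, mem_filter.mpr ⟨hA, hxA⟩⟩
            _ ≤ _ := card_biUnion_le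
        have h2 : ∑ x ∈ D.biUnion id, (F.filter (fun A => x ∈ A)).card ≤
            (D.biUnion id).card * (s.factorial * K ^ s) := by
          calc _ ≤ ∑ x ∈ D.biUnion id, s.factorial * K ^ s := sum_le_sum hcon
            _ = _ := by rw [sum_const, smul_eq_mul]
        have h3 : (D.biUnion id).card * (s.factorial * K ^ s) ≤
            K * (s + 1) * (s.factorial * K ^ s) := Nat.mul_le_mul_right _ hU
        have h4 : K * (s + 1) * (s.factorial * K ^ s) = (s + 1).factorial * K ^ (s + 1) := by
          rw [Nat.factorial_succ, pow_succ]; ring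
        omega
      obtain ⟨x, _, hx⟩ := hpig
      have hinj : Set.InjOn (fun A : Finset ℕ => A.erase x) (F.filter (fun A => x ∈ A)) := by
        intro A hA A' hA' heq
        rw [mem_coe, mem_filter] at hA hA'
        have h1 : insert x (A.erase x) = insert x (A'.erase x) := by
          have : A.erase x = A'.erase x := heq
          rw [this]
        rwa [insert_erase hA.2, insert_erase hA'.2] at h1
      obtain ⟨Z, S, hS, hSc, hZ, hd⟩ := ih ((F.filter (fun A => x ∈ A)).image (fun A => A.erase x))
        (by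
          intro A hA
          rw [mem_image] at hA
          obtain ⟨A0, hA0, rfl⟩ := hA
          rw [mem_filter] at hA0
          rw [card_erase_of_mem hA0.2, hF A0 hA0.1]
          rfl)
        (by rw [card_image_of_injOn hinj]; exact hx)
      have hSx : ∀ A ∈ S, x ∉ A ∧ insert x A ∈ F := by
        intro A hA
        have h1 := hS hA
        rw [mem_image] at h1
        obtain ⟨A0, hA0, rfl⟩ := h1
        rw [mem_filter] at hA0
        exact ⟨notMem_erase x A0, by rw [insert_erase hA0.2]; exact hA0.1⟩
      refine ⟨insert x Z, S.image (fun A => insert x A), ?_, ?_, ?_, ?_⟩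
      · intro A hA
        rw [mem_image] at hA
        obtain ⟨A0, hA0, rfl⟩ := hA
        exact (hSx A0 hA0).2
      · rw [card_image_of_injOn, hSc]
        intro A hA A' hA' heq
        have h1 : insert x A = insert x A' := heq
        have h2 : (insert x A).erase x = (insert x A').erase x := by rw [h1]
        rwa [erase_insert (hSx A hA).1, erase_insert (hSx A' hA').1] at h2
      · intro A hA
        rw [mem_image] at hA
        obtain ⟨A0, hA0, rfl⟩ := hA
        exact insert_subset_insert x (hZ A0 hA0)
      · intro A hA A' hA' hne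
        rw [mem_image] at hA hA'
        obtain ⟨A0, hA0, rfl⟩ := hA
        obtain ⟨A1, hA1, rfl⟩ := hA'
        have h1 : A0 ≠ A1 := fun h => hne (by rw [h])
        have h2 := hd A0 hA0 A1 hA1 h1
        rw [disjoint_left] at h2 ⊢
        intro y hy hy'
        rw [mem_sdiff, mem_insert, mem_insert, not_or] at hy hy'
        have h3 : y ∈ A0 \ Z := mem_sdiff.mpr ⟨hy.1.resolve_left hy.2.1, hy.2.2⟩
        have h4 : y ∈ A1 \ Z := mem_sdiff.mpr ⟨hy'.1.resolve_left hy'.2.1, hy'.2.2⟩
        exact h2 h3 h4

/-- the values on the petals -/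
theorem spread_aux (h : ℕ) (Z : Finset ℕ) (b : ℕ → ℕ) (τ l' W : ℕ) (S : Finset (Finset ℕ)) :
    (∀ A ∈ S, A.card = h ∧ Z ⊆ A ∧ 2 ≤ (A \ Z).card ∧ ∑ i ∈ A, b i ≤ τ ∧
      τ ≤ ∑ i ∈ A, b i + l') →
    (∀ A ∈ S, ∀ A' ∈ S, A ≠ A' → Disjoint (A \ Z) (A' \ Z)) → h * S.card ≤ W →
    ∃ v : ℕ → ℕ, (∀ i, b i ≤ v i ∧ v i ≤ b i + (l' + W)) ∧
      (∀ i, (∀ A ∈ S, i ∉ A \ Z) → v i = b i) ∧ (∀ A ∈ S, ∑ i ∈ A, v i = τ + W) ∧
      Set.InjOn (fun A : Finset ℕ => A.val.map v) S := by
  classical
  induction S using Finset.induction_on with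
  | empty =>
    intro _ _ _
    exact ⟨b, fun i => ⟨le_rfl, by omega⟩, fun i _ => rfl, by simp, by simp⟩
  | insert A0 S hA0 ih =>
    intro hS hd hW
    rw [card_insert_of_notMem hA0] at hW
    obtain ⟨v, hv1, hv2, hv3, hv4⟩ := ih (fun A hA => hS A (mem_insert_of_mem hA))
      (fun A hA A' hA' => hd A (mem_insert_of_mem hA) A' (mem_insert_of_mem hA'))
      (by rw [Nat.mul_succ] at hW; omega)
    obtain ⟨hc, hZ, h2, hτ1, hτ2⟩ := hS A0 (mem_insert_self _ _)
    obtain ⟨p, hp, q, hq, hpq⟩ := one_lt_card.mp h2
    have hd0 : ∀ A ∈ S, ∀ i ∈ A0 \ Z, i ∉ A := by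
      intro A hA i hi hiA
      have hne : A ≠ A0 := fun h => hA0 (h ▸ hA)
      have h3 := hd A (mem_insert_of_mem hA) A0 (mem_insert_self _ _) hne
      rw [disjoint_left] at h3
      exact h3 (mem_sdiff.mpr ⟨hiA, (mem_sdiff.mp hi).2⟩) hi
    -- the choice of `x`
    obtain ⟨x, hx, hxT⟩ : ∃ x ∈ range (W + 1), b p + x ∉ S.biUnion (fun A => A.image v) := by
      by_contra hcon
      push Not at hcon
      have h3 : ((range (W + 1)).image (fun x => b p + x)) ⊆ S.biUnion (fun A => A.image v) := by
        intro y hy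
        rw [mem_image] at hy
        obtain ⟨x, hx, rfl⟩ := hy
        exact hcon x hx
      have h4 := card_le_card h3
      rw [card_image_of_injective _ (fun x y hxy => by simpa using hxy), card_range] at h4
      have h5 : (S.biUnion (fun A => A.image v)).card ≤ S.card * h :=
        card_biUnion_le_card_mul _ _ _ (fun A hA =>
          le_trans card_image_le (le_of_eq (hS A (mem_insert_of_mem hA)).1))
      have h6 : h * (S.card + 1) = S.card * h + h := by ring
      omega
    rw [mem_range] at hx
    set y := (τ - ∑ i ∈ A0, b i) + (W - x) with hy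
    set v' : ℕ → ℕ := fun i => if i = p then b p + x else if i = q then b q + y else v i with hv'
    have hvA0 : ∀ i ∈ A0, v i = b i := by
      intro i hi
      apply hv2
      intro A hA hiA
      by_cases hiZ : i ∈ Z
      · exact (mem_sdiff.mp hiA).2 hiZ
      · exact hd0 A hA i (mem_sdiff.mpr ⟨hi, hiZ⟩) (mem_sdiff.mp hiA).1
    have hv'S : ∀ A ∈ S, ∀ i ∈ A, v' i = v i := by
      intro A hA i hi
      have h3 : i ≠ p := fun h => hd0 A hA p hp (h ▸ hi)
      have h4 : i ≠ q := fun h => hd0 A hA q hq (h ▸ hi)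
      simp only [hv', if_neg h3, if_neg h4]
    have hpA : p ∈ A0 := (mem_sdiff.mp hp).1
    have hqA : q ∈ A0 := (mem_sdiff.mp hq).1
    refine ⟨v', ?_, ?_, ?_, ?_⟩
    · intro i
      simp only [hv']
      split_ifs with h3 h4
      · subst h3; omega
      · subst h4; omega
      · exact hv1 i
    · intro i hi
      have h3 : i ≠ p := fun h => hi A0 (mem_insert_self _ _) (h ▸ hp)
      have h4 : i ≠ q := fun h => hi A0 (mem_insert_self _ _) (h ▸ hq)
      simp only [hv', if_neg h3, if_neg h4]
      exact hv2 i (fun A hA => hi A (mem_insert_of_mem hA))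
    · intro A hA
      rw [mem_insert] at hA
      rcases hA with rfl | hA
      · have h3 : ∑ i ∈ A, v' i = ∑ i ∈ A, (b i + (if i = p then x else 0) +
            (if i = q then y else 0)) := by
          refine sum_congr rfl (fun i hi => ?_)
          simp only [hv']
          by_cases h4 : i = p
          · subst h4
            simp [hpq]
          · by_cases h5 : i = q
            · subst h5
              simp [h4]
            · simp only [if_neg h4, if_neg h5, add_zero]
              exact hvA0 i hi
        rw [h3, sum_add_distrib, sum_add_distrib, sum_ite_eq' A p, sum_ite_eq' A q,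
          if_pos hpA, if_pos hqA]
        omega
      · rw [← hv3 A hA]
        exact sum_congr rfl (hv'S A hA)
    · have hmap : ∀ A ∈ S, A.val.map v' = A.val.map v := by
        intro A hA
        exact Multiset.map_congr rfl (fun i hi => hv'S A hA i hi)
      have hnew : ∀ A ∈ S, A0.val.map v' ≠ A.val.map v' := by
        intro A hA heq
        rw [hmap A hA] at heq
        have h3 : b p + x ∈ A0.val.map v' := by
          rw [Multiset.mem_map]
          exact ⟨p, hpA, by simp [hv']⟩
        rw [heq, Multiset.mem_map] at h3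
        obtain ⟨i, hi, h4⟩ := h3
        exact hxT (mem_biUnion.mpr ⟨A, hA, mem_image.mpr ⟨i, hi, h4⟩⟩)
      intro A hA A' hA' heq
      rw [mem_coe, mem_insert] at hA hA'
      have heq' : A.val.map v' = A'.val.map v' := heq
      rcases hA with rfl | hA <;> rcases hA' with rfl | hA'
      · rfl
      · exact absurd heq' (hnew A' hA')
      · exact absurd heq'.symm (hnew A hA)
      · rw [hmap A hA, hmap A' hA'] at heq'
        exact hv4 hA hA' heq'

end Pool.Agent.W14.SM
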