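import Pool.Agent.W14.SM.Det

set_option autoImplicit false

open Finset

namespace Pool.Agent.W14.SM

/-- One group: among `M` indices with base points at most `C M ^ h` there are at most `2 h K` ones
whose base points can be moved by at most `l` such that `Good` holds. -/
theorem find (h K C l M : ℕ) (hh : 2 ≤ h) (hK : 1 ≤ K) (hC : 1 ≤ C)
    (hl : 4 * (4 ^ h * h.factorial ^ 2 * h * C * K ^ h) + 2 * h * K ≤ l)
    (hM : 2 * h + 2 * (2 ^ h * h.factorial * (h.factorial * (2 * K) ^ h)) + 1 ≤ M)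
    (F : Finset ℕ) (hF : F.card = M) (b : ℕ → ℕ) (hb : ∀ i ∈ F, b i ≤ C * M ^ h) :
    ∃ G ⊆ F, G.card ≤ 2 * h * K ∧ ∃ v : ℕ → ℕ, (∀ i ∈ G, b i ≤ v i ∧ v i ≤ b i + l) ∧
      Good h K G v := by
  classical
  set Q := h.factorial * (2 * K) ^ h with hQ
  set l' := l / 2 with hl'
  have hfac : 1 ≤ h.factorial := Nat.succ_le_of_lt h.factorial_pos
  have hl'1 : 2 * (2 ^ h * h.factorial * Q) * (h * C) ≤ l' := by
    have h1 : 2 * (2 ^ h * h.factorial * Q) * (h * C) =
        2 * (4 ^ h * h.factorial ^ 2 * h * C * K ^ h) := by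
      have : (4 : ℕ) ^ h = 2 ^ h * 2 ^ h := by rw [← mul_pow]; norm_num
      rw [hQ, this, mul_pow]
      ring
    omega
  have hl'2 : h * K ≤ l' := by
    have : 2 * h * K = 2 * (h * K) := by ring
    omega
  have hhC : 1 ≤ h * C := Nat.mul_pos (by omega) hC
  have hQ1 : 1 ≤ Q := Nat.mul_pos hfac (Nat.pow_pos (by omega))
  have hl'0 : 0 < l' := by
    have h1 : 0 < 2 * (2 ^ h * h.factorial * Q) * (h * C) := by positivity
    omega
  -- the number of `h`-subsets
  have hchoose : M ^ h ≤ 2 ^ h * (h.factorial * M.choose h) := by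
    have h1 : (M + 1 - h) ^ h ≤ M.descFactorial h := Nat.pow_sub_le_descFactorial M h
    rw [Nat.descFactorial_eq_factorial_mul_choose] at h1
    calc M ^ h ≤ (2 * (M + 1 - h)) ^ h := Nat.pow_le_pow_left (by omega) h
      _ = 2 ^ h * (M + 1 - h) ^ h := by rw [mul_pow]
      _ ≤ _ := Nat.mul_le_mul_left _ h1
  have hcount : (h * (C * M ^ h) / l' + 1) * Q < M.choose h := by
    set t := h * (C * M ^ h) / l' with ht
    have h1 : l' * t ≤ h * (C * M ^ h) := Nat.mul_div_le _ _
    have h2 : (2 * (2 ^ h * h.factorial * Q) * t) * (h * C) ≤ M ^ h * (h * C) := by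
      calc (2 * (2 ^ h * h.factorial * Q) * t) * (h * C) =
            (2 * (2 ^ h * h.factorial * Q) * (h * C)) * t := by ring
        _ ≤ l' * t := Nat.mul_le_mul_right _ hl'1
        _ ≤ h * (C * M ^ h) := h1
        _ = M ^ h * (h * C) := by ring
    have h3 : 2 * (2 ^ h * h.factorial * Q) * t ≤ M ^ h := Nat.le_of_mul_le_mul_right h2 hhC
    have h4 : 2 * (2 ^ h * h.factorial * Q) < M ^ h := by
      have : M ≤ M ^ h := Nat.le_self_pow (by omega) M
      omega
    have h5 : 2 * ((2 ^ h * h.factorial) * ((t + 1) * Q)) <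
        2 * ((2 ^ h * h.factorial) * M.choose h) := by
      calc 2 * ((2 ^ h * h.factorial) * ((t + 1) * Q)) =
            2 * (2 ^ h * h.factorial * Q) * t + 2 * (2 ^ h * h.factorial * Q) := by ring
        _ < M ^ h + M ^ h := by omega
        _ ≤ 2 * (2 ^ h * (h.factorial * M.choose h)) := by omega
        _ = _ := by ring
    have h6 : (2 ^ h * h.factorial) * ((t + 1) * Q) < (2 ^ h * h.factorial) * M.choose h := by
      omega
    exact lt_of_mul_lt_mul_left h6 (Nat.zero_le _)
  -- pigeonhole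
  have hmaps : ∀ A ∈ F.powersetCard h, (∑ i ∈ A, b i) / l' ∈
      range (h * (C * M ^ h) / l' + 1) := by
    intro A hA
    rw [mem_powersetCard] at hA
    rw [mem_range]
    refine Nat.lt_succ_of_le (Nat.div_le_div_right ?_)
    calc ∑ i ∈ A, b i ≤ ∑ _i ∈ A, C * M ^ h := sum_le_sum (fun i hi => hb i (hA.1 hi))
      _ = h * (C * M ^ h) := by rw [sum_const, hA.2, smul_eq_mul]
  obtain ⟨m, _, hm⟩ := exists_lt_card_fiber_of_mul_lt_card_of_maps_to hmaps (n := Q) (by
    rw [card_range, card_powersetCard, hF]; exact hcount)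
  -- the sunflower
  obtain ⟨Z, S, hSF, hSc, hZ, hd⟩ := sunflower (2 * K) h
    ((F.powersetCard h).filter (fun A => (∑ i ∈ A, b i) / l' = m)) (by
      intro A hA
      rw [mem_filter, mem_powersetCard] at hA
      exact hA.1.2) hm
  have hS : ∀ A ∈ S, A ⊆ F ∧ A.card = h ∧ m * l' ≤ ∑ i ∈ A, b i ∧
      ∑ i ∈ A, b i < m * l' + l' := by
    intro A hA
    have h1 := hSF hA
    rw [mem_filter, mem_powersetCard] at h1
    refine ⟨h1.1.1, h1.1.2, ?_, ?_⟩
    · rw [← h1.2]; exact Nat.div_mul_le_self _ _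
    · rw [← h1.2]; exact Nat.lt_div_mul_add hl'0
  have hsd : ∀ A ∈ S, (A \ Z).card = h - Z.card := by
    intro A hA
    rw [card_sdiff_of_subset (hZ A hA), (hS A hA).2.1]
  -- all petals are nonempty
  have hZh : Z.card < h := by
    obtain ⟨A, hA, A', hA', hne⟩ := one_lt_card.mp (by rw [hSc]; omega : 1 < S.card)
    by_contra hcon
    push Not at hcon
    have h1 : A = Z := (eq_of_subset_of_card_le (hZ A hA) (by rw [(hS A hA).2.1]; exact hcon)).symm
    have h2 : A' = Z :=
      (eq_of_subset_of_card_le (hZ A' hA') (by rw [(hS A' hA').2.1]; exact hcon)).symm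
    exact hne (h1.trans h2.symm)
  by_cases hcase : Z.card + 1 = h
  · -- petals of size one: a cluster
    obtain ⟨S', hS'S, hS'c⟩ := exists_subset_card_eq (show 2 * K ≤ S.card by rw [hSc]; omega)
    have h1 : ∀ A ∈ S, ∃ p, A \ Z = {p} := by
      intro A hA
      rw [← card_eq_one, hsd A hA]
      omega
    let p : Finset ℕ → ℕ := fun A => if hA : A ∈ S then (h1 A hA).choose else 0
    have hp : ∀ A ∈ S, A \ Z = {p A} := by
      intro A hA
      have := (h1 A hA).choose_spec
      simp only [p, dif_pos hA]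
      exact this
    have hpA : ∀ A ∈ S, p A ∈ A := by
      intro A hA
      have : p A ∈ A \ Z := by rw [hp A hA]; exact mem_singleton_self _
      exact (mem_sdiff.mp this).1
    have hpinj : Set.InjOn p S' := by
      intro A hA A' hA' heq
      by_contra hne
      have h2 := hd A (hS'S hA) A' (hS'S hA') hne
      rw [hp A (hS'S hA), hp A' (hS'S hA'), disjoint_singleton] at h2
      exact h2 heq
    have hsum : ∀ A ∈ S, ∑ i ∈ A, b i = b (p A) + ∑ i ∈ Z, b i := by
      intro A hA
      rw [← sum_sdiff (hZ A hA), hp A hA, sum_singleton]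
    have hBZ : ∀ A ∈ S, b (p A) ≤ m * l' + l' - ∑ i ∈ Z, b i ∧
        m * l' + l' - ∑ i ∈ Z, b i ≤ b (p A) + l' := by
      intro A hA
      have h2 := (hS A hA).2.2
      rw [hsum A hA] at h2
      omega
    obtain ⟨v, hv1, hv2⟩ := cluster h K hh (S'.image p)
      (by rw [card_image_of_injOn hpinj, hS'c]) b (m * l' + l' - ∑ i ∈ Z, b i) l' l (by
        intro i hi
        rw [mem_image] at hi
        obtain ⟨A, hA, rfl⟩ := hi
        exact hBZ A (hS'S hA)) (by
        have h2 : 2 * K ≤ h * K := Nat.mul_le_mul_right _ hh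
        omega)
    refine ⟨S'.image p, ?_, ?_, v, hv1, hv2⟩
    · intro i hi
      rw [mem_image] at hi
      obtain ⟨A, hA, rfl⟩ := hi
      exact (hS A (hS'S hA)).1 (hpA A (hS'S hA))
    · rw [card_image_of_injOn hpinj, hS'c]
      have h2 : 2 * K ≤ h * K := Nat.mul_le_mul_right _ hh
      have h3 : 2 * h * K = 2 * (h * K) := by ring
      omega
  · -- larger petals
    obtain ⟨S', hS'S, hS'c⟩ := exists_subset_card_eq (show K ≤ S.card by rw [hSc]; omega)
    obtain ⟨v, hv1, _, hv3, hv4⟩ := spread_aux h Z b (m * l' + l') l' (h * K) S' (by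
        intro A hA
        have h1 := hS A (hS'S hA)
        refine ⟨h1.2.1, hZ A (hS'S hA), ?_, ?_, ?_⟩
        · rw [hsd A (hS'S hA)]; omega
        · omega
        · omega)
      (fun A hA A' hA' hne => hd A (hS'S hA) A' (hS'S hA') hne) (by rw [hS'c])
    refine ⟨S'.biUnion id, ?_, ?_, v, ?_, ?_⟩
    · intro i hi
      rw [mem_biUnion] at hi
      obtain ⟨A, hA, hi⟩ := hi
      exact (hS A (hS'S hA)).1 hi
    · calc (S'.biUnion id).card ≤ S'.card * h :=
            card_biUnion_le_card_mul _ _ _ (fun A hA => le_of_eq (hS A (hS'S hA)).2.1)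
        _ ≤ 2 * h * K := by rw [hS'c]; nlinarith
    · intro i _
      refine ⟨(hv1 i).1, (hv1 i).2.trans ?_⟩
      omega
    · refine ⟨m * l' + l' + h * K, S'.image (fun A => A.val.map v), ?_, ?_⟩
      · rw [card_image_of_injOn hv4, hS'c]
      · intro s hs
        rw [mem_image] at hs
        obtain ⟨A, hA, rfl⟩ := hs
        refine ⟨?_, ?_, hv3 A hA⟩
        · rw [Multiset.card_map]; exact (hS A (hS'S hA)).2.1
        · intro x hx
          rw [Multiset.mem_map] at hx
          obtain ⟨i, hi, hx⟩ := hx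
          exact ⟨i, mem_biUnion.mpr ⟨A, hA, hi⟩, hx⟩

/-- Many disjoint groups. -/
theorem groups (h K C l n0 N : ℕ) (hh : 2 ≤ h) (hK : 1 ≤ K) (hC : 1 ≤ C)
    (hl : 4 * (4 ^ h * h.factorial ^ 2 * h * (C * 2 ^ h) * K ^ h) + 2 * h * K ≤ l)
    (hN : 2 * (2 * h + 2 * (2 ^ h * h.factorial * (h.factorial * (2 * K) ^ h)) + 1) ≤ N)
    (hn0 : 4 * n0 ≤ N) (b : ℕ → ℕ) (hb : ∀ n < N, b n ≤ C * N ^ h) :
    ∀ t : ℕ, 4 * (t * (2 * h * K)) ≤ N → ∃ (v : ℕ → ℕ) (G : ℕ → Finset ℕ),
      (∀ j < t, G j ⊆ Ico n0 N ∧ (G j).card ≤ 2 * h * K ∧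
        (∀ i ∈ G j, b i ≤ v i ∧ v i ≤ b i + l) ∧ Good h K (G j) v) ∧
      (∀ j < t, ∀ j' < t, j ≠ j' → Disjoint (G j) (G j')) := by
  classical
  intro t
  induction t with
  | zero => intro _; exact ⟨b, fun _ => ∅, by simp, by simp⟩
  | succ t ih =>
    intro ht
    have ht' : 4 * (t * (2 * h * K)) ≤ N := by
      refine le_trans ?_ ht
      have : (t + 1) * (2 * h * K) = t * (2 * h * K) + 2 * h * K := by ring
      omega
    obtain ⟨v, G, h1, h2⟩ := ih ht'
    set U := (range t).biUnion G with hU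
    have hUc : U.card ≤ t * (2 * h * K) := by
      have := card_biUnion_le_card_mul (range t) G (2 * h * K)
        (fun j hj => (h1 j (mem_range.mp hj)).2.1)
      rwa [card_range] at this
    set F := Ico n0 N \ U with hF
    have hFc : N ≤ 2 * F.card := by
      have h3 : (Ico n0 N).card - U.card ≤ F.card := le_card_sdiff _ _
      rw [Nat.card_Ico] at h3
      omega
    have hbF : ∀ i ∈ F, b i ≤ (C * 2 ^ h) * F.card ^ h := by
      intro i hi
      rw [hF, mem_sdiff, mem_Ico] at hi
      calc b i ≤ C * N ^ h := hb i hi.1.2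
        _ ≤ C * (2 * F.card) ^ h := Nat.mul_le_mul_left _ (Nat.pow_le_pow_left hFc h)
        _ = _ := by rw [mul_pow]; ring
    obtain ⟨G0, hG0, hG0c, v0, hv0, hgood⟩ := find h K (C * 2 ^ h) l F.card hh hK
      (Nat.mul_pos hC (by positivity)) hl (by omega) F rfl b hbF
    have hdis : ∀ j < t, ∀ i ∈ G j, i ∉ G0 := by
      intro j hj i hi hi0
      have h3 := hG0 hi0
      rw [hF, mem_sdiff] at h3
      exact h3.2 (mem_biUnion.mpr ⟨j, mem_range.mpr hj, hi⟩)
    refine ⟨fun i => if i ∈ G0 then v0 i else v i, fun j => if j < t then G j else G0, ?_, ?_⟩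
    · intro j hj
      by_cases hjt : j < t
      · simp only [if_pos hjt]
        obtain ⟨h3, h4, h5, h6⟩ := h1 j hjt
        refine ⟨h3, h4, ?_, ?_⟩
        · intro i hi
          rw [if_neg (hdis j hjt i hi)]
          exact h5 i hi
        · exact h6.congr (fun i hi => by rw [if_neg (hdis j hjt i hi)])
      · simp only [if_neg hjt]
        refine ⟨hG0.trans sdiff_subset, hG0c, ?_, ?_⟩
        · intro i hi
          rw [if_pos hi]
          exact hv0 i hi
        · exact hgood.congr (fun i hi => by rw [if_pos hi])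
    · intro j hj j' hj' hne
      by_cases hjt : j < t <;> by_cases hjt' : j' < t
      · simp only [if_pos hjt, if_pos hjt']
        exact h2 j hjt j' hjt' hne
      · simp only [if_pos hjt, if_neg hjt']
        exact disjoint_left.mpr (hdis j hjt)
      · simp only [if_neg hjt, if_pos hjt']
        exact (disjoint_left.mpr (hdis j' hjt')).symm
      · omega

end Pool.Agent.W14.SM
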