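import Pool.Agent.W14.SM.Prob

set_option autoImplicit false

open Finset MeasureTheory ProbabilityTheory Filter Topology

namespace Pool.Agent.W14.SM

/-- the number of unordered representations of `n` as a sum of `h` elements of `A` -/
noncomputable def r (A : Set ℕ) (h n : ℕ) : ℕ :=
  Set.ncard {s : Multiset ℕ | Multiset.card s = h ∧ (∀ a ∈ s, a ∈ A) ∧ s.sum = n}

theorem reps_finite (A : Set ℕ) (h n : ℕ) :
    {s : Multiset ℕ | Multiset.card s = h ∧ (∀ a ∈ s, a ∈ A) ∧ s.sum = n}.Finite := by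
  have h1 : (Set.range fun f : Fin h → Fin (n + 1) =>
      Multiset.ofList (List.ofFn fun i => (f i : ℕ))).Finite := Set.finite_range _
  refine h1.subset ?_
  rintro s ⟨hc, _, hsum⟩
  obtain ⟨l, rfl⟩ := Quotient.exists_rep s
  have hl : l.length = h := hc
  subst hl
  have hle : ∀ i : Fin l.length, l.get i < n + 1 := by
    intro i
    have h3 : l.get i ∈ (Multiset.ofList l) := by simp
    have h2 := Multiset.single_le_sum (s := Multiset.ofList l) (fun x _ => Nat.zero_le x) _ h3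
    have h4 : (Multiset.ofList l).sum = n := hsum
    omega
  refine ⟨fun i => ⟨l.get i, hle i⟩, ?_⟩
  show Multiset.ofList (List.ofFn fun i => l.get i) = _
  rw [List.ofFn_get]
  rfl

theorem le_r {A : Set ℕ} {h K n : ℕ} (S : Finset (Multiset ℕ)) (hK : K ≤ S.card)
    (hS : ∀ s ∈ S, Multiset.card s = h ∧ (∀ a ∈ s, a ∈ A) ∧ s.sum = n) : K ≤ r A h n := by
  refine hK.trans ?_
  rw [← Set.ncard_coe_finset]
  exact Set.ncard_le_ncard (fun s hs => hS s hs) (reps_finite A h n)

variable {Ω : Type} [MeasurableSpace Ω] {μ : Measure Ω} [IsProbabilityMeasure μ]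

/-- the constant -/
def cst (h C : ℕ) : ℕ := 4 * (4 ^ h * h.factorial ^ 2 * h * ((C + 1) * 2 ^ h)) + 2 * h

theorem quant (h : ℕ) (hh : 2 ≤ h) (C : ℕ) (a : ℕ → Ω → ℕ) (b w : ℕ → ℕ)
    (ha : ∀ n, Measurable (a n)) (hind : iIndepFun a μ)
    (hb : ∃ᶠ N : ℕ in atTop, ∀ n < N, b n ≤ C * N ^ h)
    (hP : ∀ ε : ℝ, 0 < ε → ∀ᶠ n : ℕ in atTop, ∀ k ≤ w n,
      ((n : ℝ) + b n) ^ (-ε) ≤ μ.real {ω | a n ω = b n + k})
    (K : ℕ) (hw : ∀ᶠ n : ℕ in atTop, cst h C * K ^ h ≤ w n) :
    ∀ᵐ ω ∂μ, ∃ n, K ≤ r (Set.range fun i => a i ω) h n := by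
  classical
  rcases Nat.eq_zero_or_pos K with rfl | hK
  · exact Filter.Eventually.of_forall (fun ω => ⟨0, Nat.zero_le _⟩)
  set c := cst h C with hc
  set l := c * K ^ h with hl
  set g := 2 * h * K with hg
  have hg0 : 0 < g := by positivity
  have hgR : (0 : ℝ) < g := by exact_mod_cast hg0
  have hl1 : 4 * (4 ^ h * h.factorial ^ 2 * h * ((C + 1) * 2 ^ h) * K ^ h) + 2 * h * K ≤ l := by
    have h1 : K ≤ K ^ h := Nat.le_self_pow (by omega) K
    rw [hl, hc, cst]
    calc _ ≤ 4 * (4 ^ h * h.factorial ^ 2 * h * ((C + 1) * 2 ^ h) * K ^ h) + 2 * h * K ^ h :=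
          Nat.add_le_add_left (Nat.mul_le_mul_left _ h1) _
      _ = _ := by ring
  have hhR : (2 : ℝ) ≤ h := by exact_mod_cast hh
  set ε : ℝ := 1 / (2 * g * h) with hε
  have hε0 : 0 < ε := by positivity
  obtain ⟨n1, hn1⟩ := eventually_atTop.mp hw
  obtain ⟨n2, hn2⟩ := eventually_atTop.mp (hP ε hε0)
  set n0 := max 1 (max n1 n2) with hn0
  set N1 := max (2 * (2 * h + 2 * (2 ^ h * h.factorial * (h.factorial * (2 * K) ^ h)) + 1))
    (4 * n0) with hN1
  -- the bad set
  set B : Set Ω := {ω | ¬ ∃ n, K ≤ r (Set.range fun i => a i ω) h n} with hB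
  have hbound : ∀ N : ℕ, N1 ≤ N → (∀ n < N, b n ≤ C * N ^ h) →
      μ.real B ≤ Real.exp (-((N : ℝ) ^ (1 / 2 : ℝ) / (4 * g * (C + 1))) + 1) := by
    intro N hN hbN
    have hNa : 2 * (2 * h + 2 * (2 ^ h * h.factorial * (h.factorial * (2 * K) ^ h)) + 1) ≤ N :=
      (le_max_left _ _).trans hN
    have hNb : 4 * n0 ≤ N := (le_max_right _ _).trans hN
    have hN0 : 1 ≤ N := by omega
    have hNR : (1 : ℝ) ≤ N := by exact_mod_cast hN0
    set t := N / (4 * g) with ht
    have ht1 : 4 * (t * (2 * h * K)) ≤ N := by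
      have : 4 * g * t ≤ N := Nat.mul_div_le _ _
      calc 4 * (t * (2 * h * K)) = 4 * g * t := by rw [hg]; ring
        _ ≤ N := this
    obtain ⟨v, G, h1, h2⟩ := groups h K (C + 1) l n0 N hh hK (by omega) hl1 hNa hNb b
      (fun n hn => (hbN n hn).trans (Nat.mul_le_mul_right _ (by omega))) t ht1
    have hsub : B ⊆ {ω | ∀ j < t, ∃ i ∈ G j, a i ω ≠ v i} := by
      intro ω hω j hj
      by_contra hcon
      push Not at hcon
      obtain ⟨_, _, _, n, S, hSK, hS⟩ := h1 j hj
      apply hω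
      refine ⟨n, le_r S hSK (fun s hs => ⟨(hS s hs).1, fun x hx => ?_, (hS s hs).2.2⟩)⟩
      obtain ⟨i, hi, hx⟩ := (hS s hs).2.1 x hx
      exact ⟨i, by show a i ω = x; rw [hcon i hi, hx]⟩
    set X : ℝ := (C + 1) * (N : ℝ) ^ h with hX
    have hNh : (N : ℝ) ≤ (N : ℝ) ^ h := le_self_pow₀ hNR (by omega)
    have hX1 : 1 ≤ X := by
      have : (0 : ℝ) ≤ C := Nat.cast_nonneg C
      nlinarith
    set q : ℝ := X ^ (-ε) with hq
    have hq0 : 0 ≤ q := by positivity
    have hq1 : q ≤ 1 := by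
      rw [hq]
      exact Real.rpow_le_one_of_one_le_of_nonpos hX1 (by linarith)
    have hmiss := miss a ha hind v G q hq0 hq1 g t (by
      intro j hj
      obtain ⟨h3, h4, h5, _⟩ := h1 j hj
      refine ⟨h4, fun i hi => ?_⟩
      have h6 := h3 hi
      rw [mem_Ico] at h6
      have h7 := h5 i hi
      have h8 : n1 ≤ i := le_trans (by omega) h6.1
      have h9 : n2 ≤ i := le_trans (by omega) h6.1
      have h10 : 1 ≤ i := le_trans (by omega) h6.1
      have h11 := hn2 i h9 (v i - b i) (by have := hn1 i h8; omega)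
      have h12 : b i + (v i - b i) = v i := by omega
      rw [h12] at h11
      refine le_trans ?_ h11
      rw [hq, Real.rpow_neg (by positivity), Real.rpow_neg (by positivity)]
      have h13 : (0 : ℝ) < (i : ℝ) + b i := by
        have : (1 : ℝ) ≤ i := by exact_mod_cast h10
        have : (0 : ℝ) ≤ b i := Nat.cast_nonneg _
        linarith
      have h14 : (b i : ℝ) ≤ C * (N : ℝ) ^ h := by exact_mod_cast hbN i h6.2
      have h15 : (i : ℝ) ≤ N := by exact_mod_cast h6.2.le
      refine inv_anti₀ (by positivity) ?_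
      refine Real.rpow_le_rpow h13.le ?_ hε0.le
      rw [hX]
      linarith) h2
    have hqg : (N : ℝ) ^ (-(1 / 2) : ℝ) / (C + 1) ≤ q ^ g := by
      have hC0 : (0 : ℝ) ≤ C := Nat.cast_nonneg C
      have e1 : q ^ g = X ^ (-(1 / (2 * (h : ℝ)))) := by
        rw [hq, ← Real.rpow_natCast, ← Real.rpow_mul (by positivity)]
        congr 1
        rw [hε]
        field_simp
      rw [e1, hX, Real.mul_rpow (by positivity) (by positivity), ← Real.rpow_natCast,
        ← Real.rpow_mul (by positivity)]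
      have e2 : (h : ℝ) * (-(1 / (2 * (h : ℝ)))) = -(1 / 2) := by field_simp
      rw [e2, div_eq_mul_inv, mul_comm]
      refine mul_le_mul_of_nonneg_right ?_ (by positivity)
      rw [← Real.rpow_neg_one]
      refine Real.rpow_le_rpow_of_exponent_le (by linarith) ?_
      rw [neg_le_neg_iff, div_le_one (by positivity)]
      linarith
    have hmono : μ.real B ≤ (1 - q ^ g) ^ t := (measureReal_mono hsub).trans hmiss
    refine hmono.trans ?_
    have h3 : (1 - q ^ g) ^ t ≤ Real.exp (-(q ^ g) * t) := by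
      rw [mul_comm, Real.exp_nat_mul]
      refine pow_le_pow_left₀ ?_ ?_ _
      · have : q ^ g ≤ 1 := pow_le_one₀ hq0 hq1
        linarith
      · have := Real.add_one_le_exp (-(q ^ g))
        linarith
    refine h3.trans (Real.exp_le_exp.mpr ?_)
    have ht2 : (N : ℝ) / (4 * g) - 1 ≤ t := by
      have h4 : N < 4 * g * (t + 1) := by
        rw [ht]
        exact Nat.lt_mul_div_succ N (by omega)
      have h5 : (N : ℝ) < 4 * g * (t + 1) := by exact_mod_cast h4
      rw [sub_le_iff_le_add, div_le_iff₀ (by positivity)]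
      linarith
    have h4 : (N : ℝ) ^ (-(1 / 2) : ℝ) * N = (N : ℝ) ^ (1 / 2 : ℝ) := by
      nth_rewrite 2 [← Real.rpow_one (N : ℝ)]
      rw [← Real.rpow_add (by linarith)]
      norm_num
    set y : ℝ := (N : ℝ) ^ (-(1 / 2) : ℝ) / (C + 1) with hy
    have hC1 : (1 : ℝ) ≤ C + 1 := by
      have : (0 : ℝ) ≤ C := Nat.cast_nonneg C
      linarith
    have h5 : y ≤ 1 := by
      rw [hy, div_le_one (by linarith)]
      exact (Real.rpow_le_one_of_one_le_of_nonpos hNR (by norm_num)).trans hC1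
    have h6 : 0 ≤ y := by positivity
    calc -(q ^ g) * t ≤ -y * t := by
          have : (0 : ℝ) ≤ t := Nat.cast_nonneg t
          nlinarith
      _ ≤ -y * (N / (4 * g) - 1) := by nlinarith
      _ = -(((N : ℝ) ^ (-(1 / 2) : ℝ) * N) / (4 * g * (C + 1))) + y := by
          rw [hy]
          field_simp
          ring
      _ ≤ _ := by rw [h4]; linarith
  -- the limit
  have hlim : Tendsto (fun N : ℕ => Real.exp (-((N : ℝ) ^ (1 / 2 : ℝ) / (4 * g * (C + 1))) + 1)) atTop
      (𝓝 0) := by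
    refine Real.tendsto_exp_atBot.comp ?_
    refine tendsto_atBot_add_const_right _ _ ?_
    refine tendsto_neg_atTop_atBot.comp ?_
    refine Tendsto.atTop_div_const (by positivity) ?_
    exact (tendsto_rpow_atTop (by norm_num)).comp tendsto_natCast_atTop_atTop
  have hB0 : μ.real B ≤ 0 := by
    refine le_of_forall_pos_le_add (fun δ hδ => ?_)
    rw [zero_add]
    have h1 := hlim.eventually (gt_mem_nhds hδ)
    obtain ⟨N, hN, hN'⟩ := (hb.and_eventually (h1.and (eventually_ge_atTop N1))).exists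
    exact (hbound N hN'.2 hN).trans hN'.1.le
  rw [ae_iff]
  have h2 : μ.real B = 0 := le_antisymm hB0 measureReal_nonneg
  rwa [measureReal_eq_zero_iff] at h2

/-- `A` is an asymptotic basis of order `h` -/
def IsBasis (A : Set ℕ) (h : ℕ) : Prop :=
  ∃ n₀ : ℕ, ∀ n : ℕ, n₀ ≤ n →
    ∃ s : Multiset ℕ, Multiset.card s = h ∧ (∀ a ∈ s, a ∈ A) ∧ s.sum = n

/-- the number of sums of `h` elements of a finite set -/
theorem sums_card (S : Finset ℕ) (h : ℕ) (T : Finset ℕ)
    (hT : ∀ n ∈ T, ∃ s : Multiset ℕ, Multiset.card s = h ∧ (∀ a ∈ s, a ∈ S) ∧ s.sum = n) :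
    T.card ≤ S.card ^ h := by
  classical
  have h1 : T ⊆ (Finset.univ : Finset (Fin h → S)).image (fun f => ∑ i, (f i : ℕ)) := by
    intro n hn
    obtain ⟨s, hs, hsS, hsum⟩ := hT n hn
    obtain ⟨l, rfl⟩ := Quotient.exists_rep s
    have hl : l.length = h := hs
    subst hl
    rw [mem_image]
    refine ⟨fun i => ⟨l.get i, hsS _ (by simp)⟩, mem_univ _, ?_⟩
    show ∑ i, l.get i = n
    rw [← List.sum_ofFn, List.ofFn_get]
    exact hsum
  refine (card_le_card h1).trans (card_image_le.trans ?_)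
  rw [card_univ, Fintype.card_fun, Fintype.card_coe, Fintype.card_fin]

theorem basis_infinite {A : Set ℕ} {h : ℕ} (hA : IsBasis A h) : A.Infinite := by
  obtain ⟨n0, h0⟩ := hA
  intro hfin
  have h1 := sums_card hfin.toFinset h (Finset.Icc n0 (n0 + hfin.toFinset.card ^ h)) (by
    intro n hn
    rw [Finset.mem_Icc] at hn
    obtain ⟨s, hs, hsA, hsum⟩ := h0 n hn.1
    exact ⟨s, hs, fun a ha => by rw [Set.Finite.mem_toFinset]; exact hsA a ha, hsum⟩)
  rw [Nat.card_Icc] at h1
  omega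

theorem basis_growth {A : Set ℕ} {h : ℕ} (n0 : ℕ) (h0 : ∀ n : ℕ, n0 ≤ n →
    ∃ s : Multiset ℕ, Multiset.card s = h ∧ (∀ a ∈ s, a ∈ A) ∧ s.sum = n) (n : ℕ) :
    Nat.nth (· ∈ A) n ≤ n ^ h + n0 := by
  classical
  by_contra hcon
  push Not at hcon
  set x := Nat.nth (· ∈ A) n with hx
  have h1 := sums_card ((Finset.range x).filter (· ∈ A)) h (Finset.Ico n0 x) (by
    intro m hm
    rw [Finset.mem_Ico] at hm
    obtain ⟨s, hs, hsA, hsum⟩ := h0 m hm.1
    refine ⟨s, hs, fun a ha => ?_, hsum⟩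
    rw [mem_filter, mem_range]
    have := Multiset.single_le_sum (s := s) (fun x _ => Nat.zero_le x) _ ha
    exact ⟨by omega, hsA a ha⟩)
  have h2 : ((Finset.range x).filter (· ∈ A)).card = n := by
    have h3 := Nat.count_nth_of_infinite (p := (· ∈ A)) (basis_infinite ⟨n0, h0⟩) n
    rw [← hx, Nat.count_eq_card_filter_range] at h3
    exact h3
  rw [h2, Nat.card_Ico] at h1
  omega

/-- perturbations of sets -/
theorem sets (h : ℕ) (hh : 2 ≤ h) (C : ℕ) (A : Set ℕ)
    (hA : ∃ᶠ x : ℕ in atTop, x ≤ C * (A ∩ Set.Iio x).ncard ^ h) (w : ℕ → ℕ)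
    (ξ : ℕ → Ω → ℕ) (hξ : ∀ n, Measurable (ξ n)) (hind : iIndepFun ξ μ)
    (hP : ∀ ε : ℝ, 0 < ε → ∀ᶠ n : ℕ in atTop, ∀ k ≤ w n,
      (n : ℝ) ^ (-ε) ≤ μ.real {ω | ξ n ω = k})
    (K : ℕ) (hw : ∀ᶠ n : ℕ in atTop, cst h C * K ^ h ≤ w n) :
    ∀ᵐ ω ∂μ, ∃ n, K ≤ r {m | ∃ a ∈ A, m = a + ξ a ω} h n := by
  classical
  have hcount : ∀ x : ℕ, (A ∩ Set.Iio x).ncard = Nat.count (· ∈ A) x := by
    intro x
    rw [Nat.count_eq_card_filter_range, ← Set.ncard_coe_finset]
    congr 1
    ext y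
    simp [and_comm]
  simp_rw [hcount] at hA
  have hinf : A.Infinite := by
    intro hfin
    obtain ⟨x, hx, hx2⟩ := (hA.and_eventually (eventually_gt_atTop (C * A.ncard ^ h))).exists
    have h1 : Nat.count (· ∈ A) x ≤ A.ncard := by
      rw [← hcount]
      exact Set.ncard_le_ncard Set.inter_subset_left hfin
    have h2 : C * (Nat.count (· ∈ A) x) ^ h ≤ C * A.ncard ^ h :=
      Nat.mul_le_mul_left _ (Nat.pow_le_pow_left h1 h)
    omega
  set e : ℕ → ℕ := fun n => Nat.nth (· ∈ A) n with he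
  have heinj : Function.Injective e := Nat.nth_injective hinf
  have hemono : StrictMono e := Nat.nth_strictMono hinf
  have hetop : Tendsto e atTop atTop := hemono.tendsto_atTop
  have hrange : ∀ ω, (Set.range fun i => e i + ξ (e i) ω) = {m | ∃ a ∈ A, m = a + ξ a ω} := by
    intro ω
    ext m
    simp only [Set.mem_range, Set.mem_ofPred_eq]
    constructor
    · rintro ⟨i, rfl⟩
      exact ⟨e i, Nat.nth_mem_of_infinite hinf i, rfl⟩
    · rintro ⟨a, ha, rfl⟩
      have h1 : a ∈ Set.range (Nat.nth (· ∈ A)) := by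
        have h2 := Nat.range_nth_of_infinite (p := (· ∈ A)) hinf
        rw [h2]
        exact ha
      obtain ⟨i, rfl⟩ := h1
      exact ⟨i, rfl⟩
  have hq := quant (μ := μ) h hh C (fun n ω => e n + ξ (e n) ω) e (fun n => w (e n))
    (fun n => (hξ (e n)).const_add _)
    ((hind.precomp heinj).comp (fun n x => e n + x) (fun n => measurable_from_top)) (by
      rw [frequently_atTop]
      intro N0
      obtain ⟨x, hx, hx2⟩ := (hA.and_eventually (eventually_ge_atTop (e N0 + 1))).exists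
      refine ⟨Nat.count (· ∈ A) x, ?_, ?_⟩
      · have h1 : Nat.count (· ∈ A) (e N0) ≤ Nat.count (· ∈ A) x :=
          Nat.count_monotone _ (by omega)
        have h2 : Nat.count (· ∈ A) (e N0) = N0 :=
          Nat.count_nth_of_infinite (p := (· ∈ A)) hinf N0
        omega
      · intro n hn
        have h1 : e n < x := by
          by_contra hcon
          push Not at hcon
          have h2 : Nat.count (· ∈ A) x ≤ Nat.count (· ∈ A) (e n) := Nat.count_monotone _ hcon
          have h3 : Nat.count (· ∈ A) (e n) = n :=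
            Nat.count_nth_of_infinite (p := (· ∈ A)) hinf n
          omega
        omega) (by
      intro ε hε
      have h3 := hetop.eventually (eventually_ge_atTop 1)
      filter_upwards [hetop.eventually (hP ε hε), h3] with n h4 h6 k hk
      have h8 : {ω | e n + ξ (e n) ω = e n + k} = {ω | ξ (e n) ω = k} := by
        ext ω
        simp
      rw [h8]
      refine le_trans ?_ (h4 k hk)
      have h9 : (1 : ℝ) ≤ (e n : ℝ) := by exact_mod_cast h6
      have h10 : (0 : ℝ) ≤ n := Nat.cast_nonneg n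
      rw [Real.rpow_neg (by positivity), Real.rpow_neg (by positivity)]
      refine inv_anti₀ (by positivity) ?_
      exact Real.rpow_le_rpow (by linarith) (by linarith) hε.le) K
    (hetop.eventually hw)
  filter_upwards [hq] with ω hω
  obtain ⟨n, hn⟩ := hω
  refine ⟨n, ?_⟩
  rw [← hrange ω]
  exact hn

/-- asymptotic bases have the required growth -/
theorem basis_dense {A : Set ℕ} {h : ℕ} (hA : IsBasis A h) :
    ∀ᶠ x : ℕ in atTop, x ≤ 2 * (A ∩ Set.Iio x).ncard ^ h := by
  classical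
  obtain ⟨n0, h0⟩ := hA
  filter_upwards [eventually_ge_atTop (2 * n0)] with x hx
  have hcount : (A ∩ Set.Iio x).ncard = ((Finset.range x).filter (· ∈ A)).card := by
    rw [← Set.ncard_coe_finset]
    congr 1
    ext y
    simp [and_comm]
  have h1 := sums_card ((Finset.range x).filter (· ∈ A)) h (Finset.Ico n0 x) (by
    intro m hm
    rw [Finset.mem_Ico] at hm
    obtain ⟨s, hs, hsA, hsum⟩ := h0 m hm.1
    refine ⟨s, hs, fun a ha => ?_, hsum⟩
    rw [mem_filter, mem_range]
    have := Multiset.single_le_sum (s := s) (fun x _ => Nat.zero_le x) _ ha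
    exact ⟨by omega, hsA a ha⟩)
  rw [Nat.card_Ico] at h1
  rw [hcount]
  omega

end Pool.Agent.W14.SM
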