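import Pool.Agent.W14.SM.Find

set_option autoImplicit false

open Finset MeasureTheory ProbabilityTheory

namespace Pool.Agent.W14.SM

variable {Ω : Type*} [MeasurableSpace Ω] {μ : Measure Ω} [IsProbabilityMeasure μ]

theorem meas_all (S : Finset ℕ) (s : Set (S → ℕ)) : MeasurableSet s :=
  (Set.to_countable s).measurableSet

/-- independent groups of coordinates all miss their targets -/
theorem miss (a : ℕ → Ω → ℕ) (ha : ∀ n, Measurable (a n)) (hind : iIndepFun a μ)
    (v : ℕ → ℕ) (G : ℕ → Finset ℕ) (q : ℝ) (hq : 0 ≤ q) (hq1 : q ≤ 1) (g : ℕ) :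
    ∀ t : ℕ, (∀ j < t, (G j).card ≤ g ∧ ∀ i ∈ G j, q ≤ μ.real {ω | a i ω = v i}) →
      (∀ j < t, ∀ j' < t, j ≠ j' → Disjoint (G j) (G j')) →
      μ.real {ω | ∀ j < t, ∃ i ∈ G j, a i ω ≠ v i} ≤ (1 - q ^ g) ^ t := by
  classical
  intro t
  induction t with
  | zero =>
    intro _ _
    simp only [pow_zero]
    exact measureReal_le_one
  | succ t ih =>
    intro h1 h2
    set S := (range t).biUnion G with hS
    have hdis : Disjoint S (G t) := by
      rw [disjoint_left]
      intro i hi hit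
      rw [hS, mem_biUnion] at hi
      obtain ⟨j, hj, hij⟩ := hi
      rw [mem_range] at hj
      exact disjoint_left.mp (h2 j (by omega) t (by omega) (by omega)) hij hit
    have hI := hind.indepFun_finset S (G t) hdis ha
    let s1 : Set (S → ℕ) := {x | ∀ j < t, ∃ i : S, (i : ℕ) ∈ G j ∧ x i ≠ v i}
    let s2 : Set (↥(G t) → ℕ) := {x | ∃ i : ↥(G t), x i ≠ v i}
    have hset : {ω | ∀ j < t + 1, ∃ i ∈ G j, a i ω ≠ v i} =
        ((fun ω (i : S) => a i ω) ⁻¹' s1) ∩ ((fun ω (i : ↥(G t)) => a i ω) ⁻¹' s2) := by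
      ext ω
      simp only [Set.mem_ofPred_eq, Set.mem_inter_iff, Set.mem_preimage, s1, s2]
      constructor
      · intro h
        refine ⟨fun j hj => ?_, ?_⟩
        · obtain ⟨i, hi, hne⟩ := h j (by omega)
          exact ⟨⟨i, mem_biUnion.mpr ⟨j, mem_range.mpr hj, hi⟩⟩, hi, hne⟩
        · obtain ⟨i, hi, hne⟩ := h t (by omega)
          exact ⟨⟨i, hi⟩, hne⟩
      · rintro ⟨h3, ⟨i, hne⟩⟩ j hj
        by_cases hjt : j < t
        · obtain ⟨i, hi, hne⟩ := h3 j hjt
          exact ⟨i, hi, hne⟩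
        · have : j = t := by omega
          subst this
          exact ⟨i, i.2, hne⟩
    have hset1 : ((fun ω (i : S) => a i ω) ⁻¹' s1) = {ω | ∀ j < t, ∃ i ∈ G j, a i ω ≠ v i} := by
      ext ω
      simp only [Set.mem_ofPred_eq, Set.mem_preimage, s1]
      constructor
      · intro h j hj
        obtain ⟨i, hi, hne⟩ := h j hj
        exact ⟨i, hi, hne⟩
      · intro h j hj
        obtain ⟨i, hi, hne⟩ := h j hj
        exact ⟨⟨i, mem_biUnion.mpr ⟨j, mem_range.mpr hj, hi⟩⟩, hi, hne⟩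
    have hprod := hI.measure_inter_preimage_eq_mul s1 s2 (meas_all _ _) (meas_all _ _)
    -- the last group
    have hE : μ.real (⋂ i ∈ G t, a i ⁻¹' {v i}) = ∏ i ∈ G t, μ.real (a i ⁻¹' {v i}) := by
      have h3 := hind.measure_inter_preimage_eq_mul (G t) (sets := fun i => {v i})
        (fun i _ => measurableSet_singleton _)
      rw [measureReal_def, h3, ENNReal.toReal_prod]
      rfl
    have hqg : q ^ g ≤ μ.real (⋂ i ∈ G t, a i ⁻¹' {v i}) := by
      rw [hE]
      calc q ^ g ≤ q ^ (G t).card := pow_le_pow_of_le_one hq hq1 (h1 t (by omega)).1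
        _ = ∏ _i ∈ G t, q := by rw [prod_const]
        _ ≤ _ := prod_le_prod (fun i _ => hq) (fun i hi => (h1 t (by omega)).2 i hi)
    have hcompl : ((fun ω (i : ↥(G t)) => a i ω) ⁻¹' s2) =
        (⋂ i ∈ G t, a i ⁻¹' {v i})ᶜ := by
      ext ω
      simp only [Set.mem_preimage, Set.mem_ofPred_eq, s2, Set.mem_compl_iff, Set.mem_iInter,
        Set.mem_singleton_iff, not_forall]
      constructor
      · rintro ⟨i, hne⟩
        exact ⟨i, i.2, hne⟩
      · rintro ⟨i, hi, hne⟩
        exact ⟨⟨i, hi⟩, hne⟩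
    have hlast : μ.real ((fun ω (i : ↥(G t)) => a i ω) ⁻¹' s2) ≤ 1 - q ^ g := by
      rw [hcompl, probReal_compl_eq_one_sub]
      · linarith
      · exact Finset.measurableSet_biInter _ (fun i _ => ha i (measurableSet_singleton _))
    have hih := ih (fun j hj => h1 j (by omega)) (fun j hj j' hj' => h2 j (by omega) j' (by omega))
    rw [← hset1] at hih
    rw [hset, measureReal_def, hprod, ENNReal.toReal_mul, pow_succ]
    exact mul_le_mul hih hlast ENNReal.toReal_nonneg
      (pow_nonneg (by linarith [pow_le_one₀ hq hq1 (n := g)]) _)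

end Pool.Agent.W14.SM
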